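import Mathlib

open MeasureTheory
open scoped ENNReal NNReal

namespace Pool.Agent.MP_b39683_an

variable {G : Type} [MeasurableSpace G]

/-- `T` is a bounded linear operator on the complex space `L^p(G, μ)`, given on functions and
compatible with almost everywhere equality. -/
structure IsLpOperator (μ : Measure G) (p : ℝ≥0∞) (T : (G → ℂ) → (G → ℂ)) : Prop where
  mem : ∀ f, MemLp f p μ → MemLp (T f) p μ
  congr : ∀ f g, MemLp f p μ → f =ᵐ[μ] g → T f =ᵐ[μ] T g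
  add : ∀ f g, MemLp f p μ → MemLp g p μ → T (f + g) =ᵐ[μ] T f + T g
  smul : ∀ (c : ℂ) (f : G → ℂ), MemLp f p μ → T (c • f) =ᵐ[μ] c • T f
  bound : ∃ C : ℝ≥0, ∀ f, MemLp f p μ → eLpNorm (T f) p μ ≤ C * eLpNorm f p μ

/-- `T` maps nonnegative functions in `L^p(G, μ)` to nonnegative functions. -/
def IsPositive (μ : Measure G) (p : ℝ≥0∞) (T : (G → ℂ) → (G → ℂ)) : Prop :=
  ∀ f, MemLp f p μ → (∀ᵐ s ∂μ, 0 ≤ (f s).re ∧ (f s).im = 0) →
    ∀ᵐ s ∂μ, 0 ≤ (T f s).re ∧ (T f s).im = 0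

/-- `T` is regular: a complex linear combination of positive operators on `L^p(G, μ)`. -/
def IsRegular (μ : Measure G) (p : ℝ≥0∞) (T : (G → ℂ) → (G → ℂ)) : Prop :=
  ∃ (n : ℕ) (c : Fin n → ℂ) (P : Fin n → (G → ℂ) → (G → ℂ)),
    (∀ i, IsLpOperator μ p (P i) ∧ IsPositive μ p (P i)) ∧
    ∀ f, MemLp f p μ → ∀ᵐ s ∂μ, T f s = ∑ i, c i * P i f s

/-- `T` commutes with all right translations `(ρ_t f)(s) = f (s t)`. -/
def CommutesRight [Group G] (μ : Measure G) (p : ℝ≥0∞) (T : (G → ℂ) → (G → ℂ)) : Prop :=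
  ∀ (t : G) (f : G → ℂ), MemLp f p μ → ∀ᵐ s ∂μ, T (fun x => f (x * t)) s = T f (s * t)

/-- Amenability of a locally compact group `G` with left Haar measure `μ`: there is a
left-invariant mean on the real space `L^∞(G, μ)`. -/
def IsAmenable [Group G] (μ : Measure G) : Prop :=
  ∃ m : (G → ℝ) → ℝ,
    (∀ f g, MemLp f ∞ μ → f =ᵐ[μ] g → m f = m g) ∧
    (∀ f g, MemLp f ∞ μ → MemLp g ∞ μ → m (f + g) = m f + m g) ∧
    (∀ (c : ℝ) (f : G → ℝ), MemLp f ∞ μ → m (c • f) = c * m f) ∧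
    (∀ f, MemLp f ∞ μ → (∀ᵐ s ∂μ, 0 ≤ f s) → 0 ≤ m f) ∧
    m (fun _ => 1) = 1 ∧
    (∀ (t : G) (f : G → ℝ), MemLp f ∞ μ → m (fun s => f (t * s)) = m f)

end Pool.Agent.MP_b39683_an
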