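import Mathlib
import Pool.Agent.MP_b39683_an.Defs

open MeasureTheory
open scoped ENNReal NNReal

namespace Pool.Agent.MP_b39683_an

section Aux

variable {G : Type} [Group G] [MeasurableSpace G]

/-- Auxiliary form of positivity. -/
def IsPositive₀ {μ : Measure G} {p : ℝ≥0∞} [Fact (1 ≤ p)]
    (P : Lp ℂ p μ →L[ℂ] Lp ℂ p μ) : Prop :=
  ∀ f : Lp ℂ p μ, (∀ᵐ s ∂μ, 0 ≤ (f s).re ∧ (f s).im = 0) →
    ∀ᵐ s ∂μ, 0 ≤ (P f s).re ∧ (P f s).im = 0

/-- Auxiliary form of regularity. -/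
def IsRegular₀ {μ : Measure G} {p : ℝ≥0∞} [Fact (1 ≤ p)]
    (T : Lp ℂ p μ →L[ℂ] Lp ℂ p μ) : Prop :=
  T ∈ Submodule.span ℂ {P : Lp ℂ p μ →L[ℂ] Lp ℂ p μ | IsPositive₀ P}

/-- Auxiliary form of commutation. -/
def CommutesRight₀ {μ : Measure G} {p : ℝ≥0∞} [Fact (1 ≤ p)]
    (T : Lp ℂ p μ →L[ℂ] Lp ℂ p μ) : Prop :=
  ∀ (t : G) (f g : Lp ℂ p μ), (∀ᵐ s ∂μ, g s = f (s * t)) → ∀ᵐ s ∂μ, T g s = T f (s * t)

/-- The continuous linear map on `Lp` given by `T`. -/
lemma exists_clm {μ : Measure G} {p : ℝ≥0∞} [Fact (1 ≤ p)] (T : (G → ℂ) → (G → ℂ))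
    (hT : IsLpOperator μ p T) :
    ∃ S : Lp ℂ p μ →L[ℂ] Lp ℂ p μ, ∀ f : Lp ℂ p μ, S f =ᵐ[μ] T f := by
  obtain ⟨C, hC⟩ := hT.bound
  let L : Lp ℂ p μ →ₗ[ℂ] Lp ℂ p μ :=
    { toFun := fun f => (hT.mem f (Lp.memLp f)).toLp
      map_add' := by
        intro f g
        apply Lp.ext
        refine (MemLp.coeFn_toLp _).trans ?_
        refine (hT.congr _ _ (Lp.memLp _) (Lp.coeFn_add f g)).trans ?_
        refine (hT.add _ _ (Lp.memLp _) (Lp.memLp _)).trans ?_
        refine Filter.EventuallyEq.trans ?_ (Lp.coeFn_add _ _).symm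
        exact ((MemLp.coeFn_toLp _).add (MemLp.coeFn_toLp _)).symm
      map_smul' := by
        intro c f
        apply Lp.ext
        refine (MemLp.coeFn_toLp _).trans ?_
        refine (hT.congr _ _ (Lp.memLp _) (Lp.coeFn_smul c f)).trans ?_
        refine (hT.smul _ _ (Lp.memLp _)).trans ?_
        refine Filter.EventuallyEq.trans ?_ (Lp.coeFn_smul _ _).symm
        filter_upwards [MemLp.coeFn_toLp (hT.mem f (Lp.memLp f))] with s hs
        simp only [Pi.smul_apply, RingHom.id_apply]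
        rw [hs] }
  refine ⟨L.mkContinuous C ?_, ?_⟩
  · intro f
    change ‖(hT.mem f (Lp.memLp f)).toLp‖ ≤ C * ‖f‖
    rw [Lp.norm_toLp, Lp.norm_def]
    have h := hC f (Lp.memLp f)
    have h2 := ENNReal.toReal_mono (ENNReal.mul_ne_top (by simp) (Lp.memLp f).2.ne) h
    rw [ENNReal.toReal_mul, ENNReal.coe_toReal] at h2
    exact h2
  · intro f
    exact (hT.mem f (Lp.memLp f)).coeFn_toLp

open Classical in
/-- The map on functions given by a continuous linear map on `Lp`. -/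
noncomputable def ofCLM {μ : Measure G} {p : ℝ≥0∞} [Fact (1 ≤ p)]
    (S : Lp ℂ p μ →L[ℂ] Lp ℂ p μ) : (G → ℂ) → (G → ℂ) :=
  fun f => if h : MemLp f p μ then ⇑(S (h.toLp f)) else 0

lemma ofCLM_eq {μ : Measure G} {p : ℝ≥0∞} [Fact (1 ≤ p)]
    (S : Lp ℂ p μ →L[ℂ] Lp ℂ p μ) (f : G → ℂ) (h : MemLp f p μ) :
    ofCLM S f = ⇑(S (h.toLp f)) := by
  simp only [ofCLM, h, dif_pos]

lemma ofCLM_isLp {μ : Measure G} {p : ℝ≥0∞} [Fact (1 ≤ p)]
    (S : Lp ℂ p μ →L[ℂ] Lp ℂ p μ) : IsLpOperator μ p (ofCLM S) where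
  mem := fun f hf => by
    rw [ofCLM_eq S f hf]; exact Lp.memLp _
  congr := fun f g hf hfg => by
    have hg : MemLp g p μ := hf.ae_eq hfg
    rw [ofCLM_eq S f hf, ofCLM_eq S g hg, (MemLp.toLp_eq_toLp_iff hf hg).2 hfg]
  add := fun f g hf hg => by
    rw [ofCLM_eq S f hf, ofCLM_eq S g hg, ofCLM_eq S (f + g) (hf.add hg), MemLp.toLp_add, map_add]
    exact Lp.coeFn_add _ _
  smul := fun c f hf => by
    rw [ofCLM_eq S f hf, ofCLM_eq S (c • f) (hf.const_smul c), MemLp.toLp_const_smul, map_smul]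
    exact Lp.coeFn_smul _ _
  bound := by
    refine ⟨‖S‖₊, ?_⟩
    intro f hf
    rw [ofCLM_eq S f hf]
    have h := S.le_opENorm (hf.toLp f)
    rw [Lp.enorm_def, Lp.enorm_def, eLpNorm_congr_ae hf.coeFn_toLp] at h
    exact h

lemma regular_conv {μ : Measure G} {p : ℝ≥0∞} [Fact (1 ≤ p)] (T : Lp ℂ p μ →L[ℂ] Lp ℂ p μ)
    (h : IsRegular μ p (ofCLM T)) : IsRegular₀ T := by
  obtain ⟨n, c, P, hP, hT⟩ := h
  choose S hS using fun i => exists_clm (P i) (hP i).1
  have e : T = ∑ i, c i • S i := by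
    apply ContinuousLinearMap.ext
    intro f
    rw [sum_apply]
    apply Lp.ext
    have h1 := hT f (Lp.memLp f)
    rw [ofCLM_eq T f (Lp.memLp f), Lp.toLp_coeFn] at h1
    have h2 : ∀ᵐ s ∂μ, ∀ i, S i f s = P i f s := by
      rw [MeasureTheory.ae_all_iff]
      exact fun i => hS i f
    have h3 : ∀ᵐ s ∂μ, ∀ i, (c i • S i f) s = c i * S i f s := by
      rw [MeasureTheory.ae_all_iff]
      exact fun i => Lp.coeFn_smul _ _
    filter_upwards [h1, h2, h3, Lp.coeFn_finsetSum Finset.univ (fun i => (c i • S i) f)]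
      with s h1 h2 h3 h4
    rw [h1, h4, Finset.sum_apply]
    apply Finset.sum_congr rfl
    intro i _
    rw [smul_apply, h3, h2]
  unfold IsRegular₀
  rw [e]
  apply Submodule.sum_mem
  intro i _
  apply Submodule.smul_mem
  apply Submodule.subset_span
  intro f hf
  filter_upwards [(hP i).2 f (Lp.memLp f) hf, hS i f] with s h1 h2
  rw [h2]
  exact h1

lemma regular_dominated {μ : Measure G} {p : ℝ≥0∞} [Fact (1 ≤ p)]
    (T : Lp ℂ p μ →L[ℂ] Lp ℂ p μ) (hT : IsRegular₀ T) :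
    ∃ S : Lp ℂ p μ →L[ℂ] Lp ℂ p μ, 
      ∀ f : Lp ℂ p μ, (∀ᵐ s ∂μ, 0 ≤ (f s).re ∧ (f s).im = 0) →
        ∀ᵐ s ∂μ, ‖T f s‖ ≤ (S f s).re := by
  unfold IsRegular₀ at hT
  induction hT using Submodule.span_induction with
  | mem P hP =>
    refine ⟨P, ?_⟩
    intro f hf
    filter_upwards [hP f hf] with s hs
    have : P f s = (((P f s).re : ℝ) : ℂ) := by
      apply Complex.ext <;> simp [hs.2]
    rw [this, Complex.norm_real, Complex.ofReal_re, Real.norm_of_nonneg hs.1]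
  | zero =>
    refine ⟨0, ?_⟩
    intro f hf
    filter_upwards [Lp.coeFn_zero ℂ p μ] with s hs
    change ‖(0 : Lp ℂ p μ) s‖ ≤ ((0 : Lp ℂ p μ) s).re
    rw [hs]; simp
  | add T₁ T₂ _ _ h₁ h₂ =>
    obtain ⟨S₁, hS₁⟩ := h₁
    obtain ⟨S₂, hS₂⟩ := h₂
    refine ⟨S₁ + S₂, ?_⟩
    intro f hf
    filter_upwards [hS₁ f hf, hS₂ f hf, Lp.coeFn_add (T₁ f) (T₂ f), Lp.coeFn_add (S₁ f) (S₂ f)]
      with s h1 h2 h3 h4
    simp only [add_apply, h3, h4, Pi.add_apply, Complex.add_re]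
    exact (norm_add_le _ _).trans (add_le_add h1 h2)
  | smul c T _ h =>
    obtain ⟨S, hS⟩ := h
    refine ⟨(‖c‖ : ℂ) • S, ?_⟩
    intro f hf
    filter_upwards [hS f hf, Lp.coeFn_smul c (T f), Lp.coeFn_smul (‖c‖ : ℂ) (S f)] with s h1 h2 h3
    simp only [smul_apply, h2, h3, Pi.smul_apply, smul_eq_mul, norm_mul,
      Complex.re_ofReal_mul]
    gcongr

end Aux

section RS

/-- pointwise Clarkson-type inequality -/
lemma pt_ineq (q : ℝ) (hq : 1 ≤ q) (a b : ℂ) :
    ‖a + b‖ ^ q + ‖a - b‖ ^ q ≤ (2 : ℝ) ^ (max 1 (q - 1)) * (‖a‖ ^ q + ‖b‖ ^ q) := by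
  have hpar : ‖a + b‖ ^ 2 + ‖a - b‖ ^ 2 = 2 * (‖a‖ ^ 2 + ‖b‖ ^ 2) := by
    have := parallelogram_law_with_norm ℂ a b
    nlinarith [this]
  have e : ∀ z : ℂ, ‖z‖ ^ q = (‖z‖ ^ 2) ^ (q / 2) := by
    intro z
    rw [← Real.rpow_natCast, ← Real.rpow_mul (norm_nonneg _)]
    congr 1; push_cast; ring
  rw [e, e, e a, e b]
  set x := ‖a + b‖ ^ 2
  set y := ‖a - b‖ ^ 2
  set u := ‖a‖ ^ 2
  set v := ‖b‖ ^ 2
  have hx : 0 ≤ x := by positivity
  have hy : 0 ≤ y := by positivity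
  have hu : 0 ≤ u := by positivity
  have hv : 0 ≤ v := by positivity
  rcases le_total q 2 with h2 | h2
  · -- concave case
    have hmax : max 1 (q - 1) = 1 := max_eq_left (by linarith)
    rw [hmax, Real.rpow_one]
    have hconc := (Real.concaveOn_rpow (p := q / 2) (by linarith) (by linarith)).2
      (Set.mem_Ici.2 hx) (Set.mem_Ici.2 hy) (by norm_num : (0 : ℝ) ≤ 1 / 2)
      (by norm_num : (0 : ℝ) ≤ 1 / 2) (by norm_num)
    simp only [smul_eq_mul] at hconc
    have h1 : (1 / 2 * x + 1 / 2 * y) = u + v := by linarith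
    rw [h1] at hconc
    have h3 := Real.rpow_add_le_add_rpow hu hv (by linarith : 0 ≤ q / 2) (by linarith : q / 2 ≤ 1)
    linarith
  · have hmax : max 1 (q - 1) = q - 1 := max_eq_right (by linarith)
    rw [hmax]
    have h1 := Real.add_rpow_le_rpow_add hx hy (by linarith : 1 ≤ q / 2)
    rw [hpar, Real.mul_rpow (by norm_num) (by positivity)] at h1
    have h2 : (u + v) ^ (q / 2) ≤ 2 ^ (q / 2 - 1) * (u ^ (q / 2) + v ^ (q / 2)) := by
      have := NNReal.rpow_add_le_mul_rpow_add_rpow ⟨u, hu⟩ ⟨v, hv⟩ (by linarith : 1 ≤ q / 2)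
      exact_mod_cast this
    have h3 : (2 : ℝ) ^ (q - 1) = 2 ^ (q / 2) * 2 ^ (q / 2 - 1) := by
      rw [← Real.rpow_add (by norm_num)]; congr 1; ring
    rw [h3, mul_assoc]
    refine h1.trans ?_
    gcongr

lemma pt_ineq_enorm (q : ℝ) (hq : 1 ≤ q) (a b : ℂ) :
    ‖a + b‖ₑ ^ q + ‖a - b‖ₑ ^ q ≤ (2 : ℝ≥0∞) ^ (max 1 (q - 1)) * (‖a‖ₑ ^ q + ‖b‖ₑ ^ q) := by
  have h := pt_ineq q hq a b
  have e : ∀ z : ℂ, ‖z‖ₑ ^ q = ENNReal.ofReal (‖z‖ ^ q) := by
    intro z
    rw [← ofReal_norm, ENNReal.ofReal_rpow_of_nonneg (norm_nonneg _) (by linarith)]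
  have e2 : (2 : ℝ≥0∞) ^ (max 1 (q - 1)) = ENNReal.ofReal ((2 : ℝ) ^ (max 1 (q - 1))) := by
    rw [← ENNReal.ofReal_rpow_of_pos (by norm_num)]; simp
  rw [e, e, e, e, e2, ← ENNReal.ofReal_add (by positivity) (by positivity),
    ← ENNReal.ofReal_add (by positivity) (by positivity), ← ENNReal.ofReal_mul (by positivity)]
  exact ENNReal.ofReal_le_ofReal h

variable {α : Type} [MeasurableSpace α] {μ : Measure α} {p : ℝ≥0∞} 

lemma enorm_rpow [Fact (1 ≤ p)] (hp : p ≠ ∞) (f : Lp ℂ p μ) :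
    ‖f‖ₑ ^ p.toReal = ∫⁻ s, ‖f s‖ₑ ^ p.toReal ∂μ := by
  have h1 : (1 : ℝ≥0∞) ≤ p := Fact.out
  have h0 : p ≠ 0 := (lt_of_lt_of_le one_pos h1).ne'
  have hpos : 0 < p.toReal := ENNReal.toReal_pos h0 hp
  rw [Lp.enorm_def, eLpNorm_eq_lintegral_rpow_enorm_toReal h0 hp, ← ENNReal.rpow_mul,
    one_div_mul_cancel hpos.ne', ENNReal.rpow_one]

lemma Lp_ineq [Fact (1 ≤ p)] (hp : p ≠ ∞) (f g : Lp ℂ p μ) :
    ‖f + g‖ₑ ^ p.toReal + ‖f - g‖ₑ ^ p.toReal ≤
      (2 : ℝ≥0∞) ^ (max 1 (p.toReal - 1)) * (‖f‖ₑ ^ p.toReal + ‖g‖ₑ ^ p.toReal) := by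
  have h1 : (1 : ℝ≥0∞) ≤ p := Fact.out
  have hq : 1 ≤ p.toReal := by
    rw [← ENNReal.toReal_one]; exact ENNReal.toReal_mono hp h1
  rw [enorm_rpow hp, enorm_rpow hp, enorm_rpow hp, enorm_rpow hp]
  have m : ∀ h : Lp ℂ p μ, AEMeasurable (fun s => ‖h s‖ₑ ^ p.toReal) μ := fun h =>
    (Lp.aestronglyMeasurable h).enorm.pow_const _
  rw [← lintegral_add_left' (m _), ← lintegral_add_left' (m _), ← lintegral_const_mul' _ _ (by simp)]
  apply lintegral_mono_ae
  filter_upwards [Lp.coeFn_add f g, Lp.coeFn_sub f g] with s h1 h2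
  rw [h1, h2]
  exact pt_ineq_enorm _ hq _ _

/-- Rudin-Shapiro type recursion of operators. -/
noncomputable def PQ [Fact (1 ≤ p)] (U : ℕ → (Lp ℂ p μ →L[ℂ] Lp ℂ p μ)) :
    ℕ → (Lp ℂ p μ →L[ℂ] Lp ℂ p μ) × (Lp ℂ p μ →L[ℂ] Lp ℂ p μ)
  | 0 => (1, 1)
  | k + 1 => ((PQ U k).1 + (U (2 ^ k)).comp (PQ U k).2, (PQ U k).1 - (U (2 ^ k)).comp (PQ U k).2)

lemma PQ_bound [Fact (1 ≤ p)] (hp : p ≠ ∞) (U : ℕ → (Lp ℂ p μ →L[ℂ] Lp ℂ p μ))
    (hU : ∀ n f, ‖U n f‖ = ‖f‖) (k : ℕ) (f : Lp ℂ p μ) :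
    ‖(PQ U k).1 f‖ₑ ^ p.toReal + ‖(PQ U k).2 f‖ₑ ^ p.toReal ≤
      2 * ((2 : ℝ≥0∞) ^ (max 1 (p.toReal - 1))) ^ k * ‖f‖ₑ ^ p.toReal := by
  induction k with
  | zero => simp [PQ, two_mul]
  | succ k ih =>
    have h := Lp_ineq hp ((PQ U k).1 f) (U (2 ^ k) ((PQ U k).2 f))
    have e : ‖U (2 ^ k) ((PQ U k).2 f)‖ₑ = ‖(PQ U k).2 f‖ₑ := by
      rw [← ofReal_norm, ← ofReal_norm, hU]
    rw [e] at h
    have h' := h.trans (mul_le_mul_right ih _)
    refine le_trans (le_of_eq ?_) (h'.trans (le_of_eq ?_))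
    · simp [PQ]
    · rw [pow_succ]; ring

lemma Q_norm [Fact (1 ≤ p)] (hp : p ≠ ∞) (U : ℕ → (Lp ℂ p μ →L[ℂ] Lp ℂ p μ))
    (hU : ∀ n f, ‖U n f‖ = ‖f‖) (k : ℕ) :
    ‖(PQ U k).2‖ ≤ 2 * ((2 : ℝ) ^ (max 1 (p.toReal - 1) / p.toReal)) ^ k := by
  have h1 : (1 : ℝ≥0∞) ≤ p := Fact.out
  have hq : 1 ≤ p.toReal := by
    rw [← ENNReal.toReal_one]; exact ENNReal.toReal_mono hp h1
  refine ContinuousLinearMap.opNorm_le_bound _ (by positivity) ?_
  intro f
  have h := (le_add_self).trans (PQ_bound hp U hU k f)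
  have e : ∀ z : Lp ℂ p μ, ‖z‖ₑ ^ p.toReal = ENNReal.ofReal (‖z‖ ^ p.toReal) := by
    intro z
    rw [← ofReal_norm, ENNReal.ofReal_rpow_of_nonneg (norm_nonneg _) (by linarith)]
  have e2 : (2 : ℝ≥0∞) ^ (max 1 (p.toReal - 1)) = ENNReal.ofReal ((2 : ℝ) ^ (max 1 (p.toReal - 1))) := by
    rw [← ENNReal.ofReal_rpow_of_pos (by norm_num)]; simp
  have e3 : (2 : ℝ≥0∞) = ENNReal.ofReal 2 := by simp
  rw [e, e f, e2, e3, ← ENNReal.ofReal_pow (by positivity), ← ENNReal.ofReal_mul (by norm_num),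
    ← ENNReal.ofReal_mul (by positivity), ENNReal.ofReal_le_ofReal_iff (by positivity)] at h
  -- real inequality
  have h5 : (‖(PQ U k).2 f‖ ^ p.toReal) ^ (1 / p.toReal) ≤
      (2 * ((2 : ℝ) ^ (max 1 (p.toReal - 1))) ^ k * ‖f‖ ^ p.toReal) ^ (1 / p.toReal) :=
    Real.rpow_le_rpow (by positivity) h (by positivity)
  rw [← Real.rpow_mul (norm_nonneg _), mul_one_div_cancel (by linarith), Real.rpow_one,
    Real.mul_rpow (by positivity) (by positivity), Real.mul_rpow (by norm_num) (by positivity),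
    ← Real.rpow_mul (norm_nonneg _), mul_one_div_cancel (by linarith), Real.rpow_one] at h5
  refine h5.trans ?_
  gcongr
  · calc (2 : ℝ) ^ (1 / p.toReal) ≤ 2 ^ (1 : ℝ) := by
          apply Real.rpow_le_rpow_of_exponent_le (by norm_num)
          rw [div_le_one (by linarith)]; exact hq
      _ = 2 := by simp
  · rw [← Real.rpow_natCast, ← Real.rpow_natCast, ← Real.rpow_mul (by positivity),
      ← Real.rpow_mul (by positivity), ← Real.rpow_mul (by positivity)]
    apply le_of_eq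
    congr 1
    field_simp

/-- choice of the ratio -/
lemma exists_ratio (hp1 : 1 < p) (hp : p ≠ ∞) :
    ∃ r : ℝ, 1 / 2 < r ∧ r * (2 : ℝ) ^ (max 1 (p.toReal - 1) / p.toReal) < 1 := by
  have hq : 1 < p.toReal := by
    rw [← ENNReal.toReal_one]
    exact (ENNReal.toReal_lt_toReal (by simp) hp).2 hp1
  have hθ : max 1 (p.toReal - 1) / p.toReal < 1 := by
    rw [div_lt_one (by linarith)]
    exact max_lt hq (by linarith)
  have h2 : (2 : ℝ) ^ (max 1 (p.toReal - 1) / p.toReal) < 2 := by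
    calc (2 : ℝ) ^ (max 1 (p.toReal - 1) / p.toReal) < 2 ^ (1 : ℝ) :=
          Real.rpow_lt_rpow_of_exponent_lt (by norm_num) hθ
      _ = 2 := by simp
  set c := (2 : ℝ) ^ (max 1 (p.toReal - 1) / p.toReal) with hc
  have hc0 : 0 < c := by positivity
  obtain ⟨r, hr1, hr2⟩ := exists_between (show (1 / 2 : ℝ) < 1 / c by
    apply one_div_lt_one_div_of_lt hc0 h2)
  exact ⟨r, hr1, by rwa [lt_div_iff₀ hc0] at hr2⟩

end RS

section Discrete

variable {G : Type} [Group G] [MeasurableSpace G] [DiscreteMeasurableSpace G]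
variable {p : ℝ≥0∞} [Fact (1 ≤ p)]

lemma mp_bij (f : G → G) (hf : Function.Bijective f) :
    MeasurePreserving f (Measure.count : Measure G) Measure.count := by
  refine ⟨Measurable.of_discrete, ?_⟩
  ext s hs
  rw [Measure.map_apply Measurable.of_discrete hs,
    Measure.count_apply (MeasurableSet.of_discrete), Measure.count_apply hs,
    Set.encard_preimage_of_bijective hf]

/-- Left translation by `g` on `L^p` of counting measure. -/
noncomputable def lam (g : G) :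
    Lp ℂ p (Measure.count : Measure G) →L[ℂ] Lp ℂ p (Measure.count : Measure G) :=
  (Lp.compMeasurePreservingₗᵢ ℂ (fun s => g⁻¹ * s)
    (mp_bij _ (Group.mulLeft_bijective _))).toContinuousLinearMap

lemma lam_apply (g : G) (f : Lp ℂ p (Measure.count : Measure G)) (s : G) :
    lam g f s = f (g⁻¹ * s) :=
  Measure.ae_count_iff.1 (Lp.coeFn_compMeasurePreserving f (mp_bij _ (Group.mulLeft_bijective g⁻¹))) s

lemma lam_norm (g : G) (f : Lp ℂ p (Measure.count : Measure G)) : ‖lam g f‖ = ‖f‖ :=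
  (Lp.compMeasurePreservingₗᵢ ℂ (fun s => g⁻¹ * s)
    (mp_bij _ (Group.mulLeft_bijective _))).norm_map f

lemma add_ap (f g : Lp ℂ p (Measure.count : Measure G)) (s : G) : (f + g) s = f s + g s :=
  Measure.ae_count_iff.1 (Lp.coeFn_add f g) s

lemma sub_ap (f g : Lp ℂ p (Measure.count : Measure G)) (s : G) : (f - g) s = f s - g s :=
  Measure.ae_count_iff.1 (Lp.coeFn_sub f g) s

lemma smul_ap (c : ℂ) (f : Lp ℂ p (Measure.count : Measure G)) (s : G) : (c • f) s = c * f s :=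
  Measure.ae_count_iff.1 (Lp.coeFn_smul c f) s

lemma norm_ap_le (hp : p ≠ ∞) (f : Lp ℂ p (Measure.count : Measure G)) (s : G) : ‖f s‖ ≤ ‖f‖ := by
  have h1 : (1 : ℝ≥0∞) ≤ p := Fact.out
  have hpos : 0 < p.toReal := ENNReal.toReal_pos (lt_of_lt_of_le one_pos h1).ne' hp
  have h : ‖f s‖ₑ ^ p.toReal ≤ ‖f‖ₑ ^ p.toReal := by
    rw [enorm_rpow hp, lintegral_count]
    exact ENNReal.le_tsum s
  have h2 := (ENNReal.rpow_le_rpow_iff hpos).1 h
  rw [← ofReal_norm, ← ofReal_norm, ENNReal.ofReal_le_ofReal_iff (norm_nonneg _)] at h2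
  exact h2

/-- Evaluation functional. -/
noncomputable def ev (hp : p ≠ ∞) (s : G) : Lp ℂ p (Measure.count : Measure G) →L[ℂ] ℂ :=
  LinearMap.mkContinuous
    { toFun := fun f => f s
      map_add' := fun f g => add_ap f g s
      map_smul' := fun c f => smul_ap c f s } 1
    (fun f => by simpa using norm_ap_le hp f s)

lemma ev_apply (hp : p ≠ ∞) (s : G) (f : Lp ℂ p (Measure.count : Measure G)) : ev hp s f = f s := rfl

/-- Rudin-Shapiro coefficients. -/
noncomputable def rs : ℕ → (ℕ → ℂ) × (ℕ → ℂ)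
  | 0 => (fun _ => 1, fun _ => 1)
  | k + 1 => (fun n => if n < 2 ^ k then (rs k).1 n else (rs k).2 (n - 2 ^ k),
      fun n => if n < 2 ^ k then (rs k).1 n else - (rs k).2 (n - 2 ^ k))

lemma rs_norm (k : ℕ) : ∀ n, ‖(rs k).1 n‖ = 1 ∧ ‖(rs k).2 n‖ = 1 := by
  induction k with
  | zero => intro n; simp [rs]
  | succ k ih =>
    intro n
    simp only [rs]
    split_ifs
    · exact ⟨(ih n).1, (ih n).1⟩
    · rw [norm_neg]; exact ⟨(ih _).2, (ih _).2⟩

lemma PQ_apply (a : G) (k : ℕ) (f : Lp ℂ p (Measure.count : Measure G)) : ∀ (s : G),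
    (PQ (fun n => lam (a ^ n)) k).1 f s =
        ∑ n ∈ Finset.range (2 ^ k), (rs k).1 n * f ((a ^ n)⁻¹ * s) ∧
      (PQ (fun n => lam (a ^ n)) k).2 f s =
        ∑ n ∈ Finset.range (2 ^ k), (rs k).2 n * f ((a ^ n)⁻¹ * s) := by
  induction k with
  | zero => intro s; simp [PQ, rs]
  | succ k ih =>
    intro s
    have h1 := (ih s).1
    have h2 := (ih ((a ^ (2 ^ k))⁻¹ * s)).2
    have e2 : 2 ^ (k + 1) = 2 ^ k + 2 ^ k := by rw [pow_succ]; ring
    have harg : ∀ n, (a ^ (2 ^ k + n))⁻¹ * s = (a ^ n)⁻¹ * ((a ^ (2 ^ k))⁻¹ * s) := by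
      intro n
      rw [pow_add, mul_inv_rev, mul_assoc]
    constructor
    · simp only [PQ]
      rw [add_apply, add_ap, h1, ContinuousLinearMap.comp_apply, lam_apply, h2, e2,
        Finset.sum_range_add]
      congr 1
      · apply Finset.sum_congr rfl
        intro n hn
        rw [Finset.mem_range] at hn
        simp [rs, hn]
      · apply Finset.sum_congr rfl
        intro n hn
        rw [harg]
        simp [rs]
    · simp only [PQ]
      rw [sub_apply, sub_ap, h1, ContinuousLinearMap.comp_apply, lam_apply, h2, e2,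
        Finset.sum_range_add, sub_eq_add_neg, ← Finset.sum_neg_distrib]
      congr 1
      · apply Finset.sum_congr rfl
        intro n hn
        rw [Finset.mem_range] at hn
        simp [rs, hn]
      · apply Finset.sum_congr rfl
        intro n hn
        rw [harg]
        simp [rs]

/-- Block operators. -/
noncomputable def V (a : G) (k : ℕ) :
    Lp ℂ p (Measure.count : Measure G) →L[ℂ] Lp ℂ p (Measure.count : Measure G) :=
  (lam (a ^ (2 ^ k))).comp (PQ (fun n => lam (a ^ n)) k).2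

lemma V_apply (a : G) (k : ℕ) (f : Lp ℂ p (Measure.count : Measure G)) (s : G) :
    V a k f s = ∑ n ∈ Finset.range (2 ^ k), (rs k).2 n * f ((a ^ (2 ^ k + n))⁻¹ * s) := by
  unfold V
  rw [ContinuousLinearMap.comp_apply, lam_apply, (PQ_apply a k f _).2]
  apply Finset.sum_congr rfl
  intro n _
  rw [pow_add, mul_inv_rev, mul_assoc]

lemma V_norm (hp : p ≠ ∞) (a : G) (k : ℕ) :
    ‖(V a k : Lp ℂ p (Measure.count : Measure G) →L[ℂ] Lp ℂ p (Measure.count : Measure G))‖ ≤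
      2 * ((2 : ℝ) ^ (max 1 (p.toReal - 1) / p.toReal)) ^ k := by
  refine ContinuousLinearMap.opNorm_le_bound _ (by positivity) ?_
  intro f
  unfold V
  rw [ContinuousLinearMap.comp_apply, lam_norm]
  refine (ContinuousLinearMap.le_opNorm _ f).trans ?_
  gcongr
  exact Q_norm hp _ (fun n f => lam_norm _ f) k

lemma V_summable (hp : p ≠ ∞) (a : G) (r : ℝ) (hr0 : 0 < r)
    (hr : r * (2 : ℝ) ^ (max 1 (p.toReal - 1) / p.toReal) < 1) :
    Summable (fun k => ((r ^ k : ℝ) : ℂ) •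
      (V a k : Lp ℂ p (Measure.count : Measure G) →L[ℂ] Lp ℂ p (Measure.count : Measure G))) := by
  apply Summable.of_norm
  refine Summable.of_nonneg_of_le (fun k => norm_nonneg _) (fun k => ?_)
    ((summable_geometric_of_lt_one (by positivity) hr).mul_left 2)
  rw [norm_smul, Complex.norm_real, Real.norm_of_nonneg (by positivity), mul_pow]
  calc r ^ k * ‖V a k‖ ≤ r ^ k * (2 * ((2 : ℝ) ^ (max 1 (p.toReal - 1) / p.toReal)) ^ k) := by
        gcongr; exact V_norm hp a k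
    _ = _ := by ring

/-- The operator. -/
noncomputable def Top (a : G) (r : ℝ) :
    Lp ℂ p (Measure.count : Measure G) →L[ℂ] Lp ℂ p (Measure.count : Measure G) :=
  ∑' k, ((r ^ k : ℝ) : ℂ) • V a k

lemma Top_apply (hp : p ≠ ∞) (a : G) (r : ℝ) (hr0 : 0 < r)
    (hr : r * (2 : ℝ) ^ (max 1 (p.toReal - 1) / p.toReal) < 1)
    (f : Lp ℂ p (Measure.count : Measure G)) (s : G) :
    HasSum (fun k => ((r ^ k : ℝ) : ℂ) *
      ∑ n ∈ Finset.range (2 ^ k), (rs k).2 n * f ((a ^ (2 ^ k + n))⁻¹ * s)) (Top a r f s) := by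
  have h1 := (V_summable hp a r hr0 hr).hasSum
  have h2 := h1.mapL ((ev hp s).comp
    (ContinuousLinearMap.apply ℂ (Lp ℂ p (Measure.count : Measure G)) f))
  convert h2 using 1
  · funext k
    simp only [ContinuousLinearMap.comp_apply, ContinuousLinearMap.apply_apply, ev_apply]
    rw [smul_apply, smul_ap, V_apply]
  · rfl

lemma Top_commutes (hp : p ≠ ∞) (a : G) (r : ℝ) (hr0 : 0 < r)
    (hr : r * (2 : ℝ) ^ (max 1 (p.toReal - 1) / p.toReal) < 1) :
    CommutesRight₀ (Top a r : Lp ℂ p (Measure.count : Measure G) →L[ℂ] Lp ℂ p (Measure.count : Measure G)) := by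
  intro t f g hfg
  rw [Measure.ae_count_iff] at hfg ⊢
  intro s
  have h1 := Top_apply hp a r hr0 hr g s
  have h2 := Top_apply hp a r hr0 hr f (s * t)
  refine h1.unique ?_
  convert h2 using 1
  funext k
  congr 1
  apply Finset.sum_congr rfl
  intro n _
  rw [hfg, mul_assoc]

/-- point masses -/
noncomputable def dl (x : G) : Lp ℂ p (Measure.count : Measure G) :=
  indicatorConstLp p (MeasurableSet.singleton x) (by simp) (1 : ℂ)

open Classical in
lemma dl_apply (x s : G) : (dl x : Lp ℂ p (Measure.count : Measure G)) s = if s = x then 1 else 0 := by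
  have := Measure.ae_count_iff.1 (indicatorConstLp_coeFn (p := p) (μ := (Measure.count : Measure G))
    (s := {x}) (hs := MeasurableSet.singleton x) (hμs := by simp) (c := (1 : ℂ))) s
  rw [dl, this]
  simp [Set.indicator_apply]

lemma Top_dl (hp : p ≠ ∞) (a : G) (ha : Function.Injective (fun n : ℕ => a ^ n)) (r : ℝ) (hr0 : 0 < r)
    (hr : r * (2 : ℝ) ^ (max 1 (p.toReal - 1) / p.toReal) < 1) (x : G) (k j : ℕ)
    (h1 : 2 ^ k ≤ j) (h2 : j < 2 ^ (k + 1)) :
    ‖(Top a r (dl x) : Lp ℂ p (Measure.count : Measure G)) (a ^ j * x)‖ = r ^ k := by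
  have hs := Top_apply hp a r hr0 hr (dl x) (a ^ j * x)
  have hterm : ∀ k' n, ((dl x : Lp ℂ p (Measure.count : Measure G))
      ((a ^ (2 ^ k' + n))⁻¹ * (a ^ j * x))) = if 2 ^ k' + n = j then 1 else 0 := by
    intro k' n
    classical
    rw [dl_apply]
    have : (a ^ (2 ^ k' + n))⁻¹ * (a ^ j * x) = x ↔ 2 ^ k' + n = j := by
      constructor
      · intro h
        rw [inv_mul_eq_iff_eq_mul] at h
        exact (ha (mul_right_cancel h)).symm
      · intro h
        rw [h]; group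
    simp [this]
  have hsingle := hasSum_single (f := fun k' => ((r ^ k' : ℝ) : ℂ) *
      ∑ n ∈ Finset.range (2 ^ k'), (rs k').2 n * (dl x : Lp ℂ p (Measure.count : Measure G))
        ((a ^ (2 ^ k' + n))⁻¹ * (a ^ j * x))) k (by
    intro k' hk'
    rw [Finset.sum_eq_zero, mul_zero]
    intro n hn
    rw [Finset.mem_range] at hn
    rw [hterm, if_neg, mul_zero]
    intro hj
    apply hk'
    have e2 : 2 ^ (k' + 1) = 2 ^ k' + 2 ^ k' := by rw [pow_succ]; ring
    rcases lt_trichotomy k' k with h | h | h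
    · have : 2 ^ (k' + 1) ≤ 2 ^ k := Nat.pow_le_pow_right (by norm_num) h
      omega
    · exact h
    · have : 2 ^ (k + 1) ≤ 2 ^ k' := Nat.pow_le_pow_right (by norm_num) h
      omega)
  have e := hs.unique hsingle
  rw [e, Finset.sum_eq_single (j - 2 ^ k)]
  · rw [hterm, if_pos (by omega), mul_one, norm_mul, (rs_norm k _).2, mul_one, Complex.norm_real,
      Real.norm_of_nonneg (by positivity)]
  · intro n hn hne
    rw [hterm, if_neg (by omega), mul_zero]
  · intro hn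
    rw [Finset.mem_range] at hn
    have e2 : 2 ^ (k + 1) = 2 ^ k + 2 ^ k := by rw [pow_succ]; ring
    omega

lemma sum_dl (M : ℕ) (a : G) (ha : Function.Injective (fun n : ℕ => a ^ n)) (s : G) :
    ((∑ m ∈ Finset.range M, dl (a ^ m) : Lp ℂ p (Measure.count : Measure G)) s = 1 ∧
      ∃ m < M, s = a ^ m) ∨
    ((∑ m ∈ Finset.range M, dl (a ^ m) : Lp ℂ p (Measure.count : Measure G)) s = 0 ∧
      ∀ m < M, s ≠ a ^ m) := by
  induction M with
  | zero =>
    right
    refine ⟨?_, by simp⟩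
    simp only [Finset.range_zero, Finset.sum_empty]
    exact Measure.ae_count_iff.1 (Lp.coeFn_zero ℂ p (Measure.count : Measure G)) s
  | succ M ih =>
    classical
    rw [Finset.sum_range_succ, add_ap, dl_apply]
    by_cases hs : s = a ^ M
    · left
      refine ⟨?_, M, by omega, hs⟩
      rcases ih with ⟨_, m, hm, hsm⟩ | ⟨h0, _⟩
      · exfalso
        have : m = M := ha (hsm.symm.trans hs)
        omega
      · rw [h0, if_pos hs, zero_add]
    · rcases ih with ⟨h1, m, hm, hsm⟩ | ⟨h0, hne⟩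
      · left
        refine ⟨?_, m, by omega, hsm⟩
        rw [h1, if_neg hs, add_zero]
      · right
        refine ⟨by rw [h0, if_neg hs, add_zero], ?_⟩
        intro m hm
        rcases Nat.lt_succ_iff_lt_or_eq.1 hm with h | h
        · exact hne m h
        · rw [h]; exact hs

lemma norm_sum_dl (hp : p ≠ ∞) (M : ℕ) (a : G) (ha : Function.Injective (fun n : ℕ => a ^ n)) :
    ‖(∑ m ∈ Finset.range M, dl (a ^ m) : Lp ℂ p (Measure.count : Measure G))‖ₑ ^ p.toReal ≤ M := by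
  classical
  have h1 : (1 : ℝ≥0∞) ≤ p := Fact.out
  have hpos : 0 < p.toReal := ENNReal.toReal_pos (lt_of_lt_of_le one_pos h1).ne' hp
  rw [enorm_rpow hp]
  calc ∫⁻ s, ‖(∑ m ∈ Finset.range M, dl (a ^ m) : Lp ℂ p (Measure.count : Measure G)) s‖ₑ ^ p.toReal
        ∂Measure.count
      ≤ ∫⁻ s, Set.indicator (((Finset.range M).image (fun m => a ^ m) : Finset G) : Set G) 1 s
        ∂(Measure.count : Measure G) := by
        apply lintegral_mono
        intro s
        rcases sum_dl (p := p) M a ha s with ⟨h, m, hm, hs⟩ | ⟨h, _⟩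
        · simp only [h]
          rw [Set.indicator_of_mem]
          · simp
          · simp only [Finset.coe_image, Finset.coe_range, Set.mem_image, Set.mem_Iio]
            exact ⟨m, hm, hs.symm⟩
        · simp only [h]
          simp [hpos]
    _ = (((Finset.range M).image (fun m => a ^ m) : Finset G).card : ℝ≥0∞) := by
        rw [lintegral_indicator_one MeasurableSet.of_discrete, Measure.count_apply_finset]
    _ ≤ M := by
        have : ((Finset.range M).image (fun m => a ^ m)).card ≤ M := by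
          simpa using Finset.card_image_le (s := Finset.range M) (f := fun m => a ^ m)
        exact_mod_cast this

lemma Top_not_regular (hp1 : 1 < p) (hp : p ≠ ∞) (a : G)
    (ha : Function.Injective (fun n : ℕ => a ^ n)) (r : ℝ) (hr2 : 1 / 2 < r)
    (hr : r * (2 : ℝ) ^ (max 1 (p.toReal - 1) / p.toReal) < 1) :
    ¬ IsRegular₀ (Top a r :
      Lp ℂ p (Measure.count : Measure G) →L[ℂ] Lp ℂ p (Measure.count : Measure G)) := by
  classical
  intro hreg
  have h1 : (1 : ℝ≥0∞) ≤ p := Fact.out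
  have hpos : 0 < p.toReal := ENNReal.toReal_pos (lt_of_lt_of_le one_pos h1).ne' hp
  have hr0 : 0 < r := by linarith
  obtain ⟨S, hS⟩ := regular_dominated _ hreg
  have hdl : ∀ x s : G, ‖(Top a r (dl x) : Lp ℂ p (Measure.count : Measure G)) s‖ ≤
      (S (dl x) s).re := by
    intro x s
    refine Measure.ae_count_iff.1 (hS (dl x) ?_) s
    rw [Measure.ae_count_iff]
    intro s
    rw [dl_apply]
    split_ifs <;> simp
  have hnn : ∀ x s : G, 0 ≤ (S (dl x) s).re := fun x s => (norm_nonneg _).trans (hdl x s)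
  -- key lower bound
  have key : ∀ k : ℕ, (2 * r) ^ k ≤ 2 * ‖S‖ := by
    intro k
    set M := 2 ^ (k + 2) with hM
    set F : Lp ℂ p (Measure.count : Measure G) := ∑ m ∈ Finset.range M, dl (a ^ m) with hF
    have e1 : 2 ^ (k + 1) = 2 ^ k + 2 ^ k := by rw [pow_succ]; ring
    have e2 : 2 ^ (k + 2) = 2 ^ k + 2 ^ k + 2 ^ k + 2 ^ k := by rw [pow_succ, pow_succ]; ring
    have hlow : ∀ j, 2 ^ (k + 1) ≤ j → j < 2 ^ (k + 2) → (2 * r) ^ k ≤ ‖S F (a ^ j)‖ := by
      intro j hj1 hj2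
      have hsum : S F (a ^ j) = ∑ m ∈ Finset.range M, (S (dl (a ^ m)) : Lp ℂ p Measure.count) (a ^ j) := by
        rw [hF, map_sum, ← ev_apply hp, map_sum]
        rfl
      refine le_trans ?_ (Complex.re_le_norm _)
      rw [hsum, Complex.re_sum]
      have hsub : Finset.Ioc (j - 2 ^ (k + 1)) (j - 2 ^ k) ⊆ Finset.range M := by
        intro m hm
        rw [Finset.mem_Ioc] at hm
        rw [Finset.mem_range]
        omega
      calc (2 * r) ^ k = ∑ m ∈ Finset.Ioc (j - 2 ^ (k + 1)) (j - 2 ^ k), r ^ k := by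
            rw [Finset.sum_const, Nat.card_Ioc, nsmul_eq_mul, mul_pow]
            congr 1
            have : j - 2 ^ k - (j - 2 ^ (k + 1)) = 2 ^ k := by omega
            rw [this]; push_cast; rfl
        _ ≤ ∑ m ∈ Finset.Ioc (j - 2 ^ (k + 1)) (j - 2 ^ k),
              ((S (dl (a ^ m)) : Lp ℂ p Measure.count) (a ^ j)).re := by
            apply Finset.sum_le_sum
            intro m hm
            rw [Finset.mem_Ioc] at hm
            have hjm : a ^ j = a ^ (j - m) * a ^ m := by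
              rw [← pow_add]; congr 1; omega
            have := Top_dl hp a ha r hr0 hr (a ^ m) k (j - m) (by omega) (by omega)
            rw [← this, hjm]
            exact hdl _ _
        _ ≤ _ := Finset.sum_le_sum_of_subset_of_nonneg hsub (fun m _ _ => hnn _ _)
    -- compare norms
    have hup : ‖S F‖ₑ ^ p.toReal ≤ ‖S‖ₑ ^ p.toReal * M := by
      calc ‖S F‖ₑ ^ p.toReal ≤ (‖S‖ₑ * ‖F‖ₑ) ^ p.toReal := by
            gcongr
            exact S.le_opENorm F
        _ = ‖S‖ₑ ^ p.toReal * ‖F‖ₑ ^ p.toReal := ENNReal.mul_rpow_of_nonneg _ _ hpos.le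
        _ ≤ _ := by
            gcongr
            exact norm_sum_dl hp M a ha
    have hdown : (ENNReal.ofReal ((2 * r) ^ k)) ^ p.toReal * (2 ^ (k + 1) : ℕ) ≤
        ‖S F‖ₑ ^ p.toReal := by
      rw [enorm_rpow hp]
      have hA : ((2 ^ (k + 1) : ℕ) : ℝ≥0∞) =
          (Measure.count : Measure G) (((Finset.Ico (2 ^ (k + 1)) (2 ^ (k + 2))).image
            (fun m => a ^ m) : Finset G) : Set G) := by
        have e3 : 2 ^ (k + 2) - 2 ^ (k + 1) = 2 ^ (k + 1) := by
          have hk0 : 0 < 2 ^ k := by positivity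
          omega
        rw [Measure.count_apply_finset, Finset.card_image_of_injective _ ha, Nat.card_Ico, e3]
      rw [hA, ← lintegral_indicator_const MeasurableSet.of_discrete]
      apply lintegral_mono
      intro s
      by_cases hs : s ∈ (((Finset.Ico (2 ^ (k + 1)) (2 ^ (k + 2))).image
            (fun m => a ^ m) : Finset G) : Set G)
      · rw [Set.indicator_of_mem hs]
        simp only [Finset.coe_image, Set.mem_image, Finset.coe_Ico, Set.mem_Ico] at hs
        obtain ⟨j, ⟨hj1, hj2⟩, rfl⟩ := hs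
        have := hlow j hj1 hj2
        dsimp only
        gcongr
        rw [← ofReal_norm]
        exact ENNReal.ofReal_le_ofReal this
      · rw [Set.indicator_of_notMem hs]
        exact zero_le
    have hfin := hdown.trans hup
    -- divide by 2^(k+1)
    have hM2 : (M : ℝ≥0∞) = 2 * (2 ^ (k + 1) : ℕ) := by
      rw [hM, pow_succ]; push_cast; ring
    rw [hM2, ← mul_assoc] at hfin
    have hne0 : ((2 ^ (k + 1) : ℕ) : ℝ≥0∞) ≠ 0 := by positivity
    have hnetop : ((2 ^ (k + 1) : ℕ) : ℝ≥0∞) ≠ ∞ := ENNReal.natCast_ne_top _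
    have h3 := (ENNReal.mul_le_mul_iff_left hne0 hnetop).1 hfin
    have h4 : (ENNReal.ofReal ((2 * r) ^ k)) ^ p.toReal ≤ (2 * ‖S‖ₑ) ^ p.toReal := by
      refine h3.trans ?_
      rw [ENNReal.mul_rpow_of_nonneg _ _ hpos.le, mul_comm]
      gcongr
      have hq : 1 ≤ p.toReal := by
        rw [← ENNReal.toReal_one]; exact ENNReal.toReal_mono hp h1
      calc (2 : ℝ≥0∞) = 2 ^ (1 : ℝ) := by simp
        _ ≤ 2 ^ p.toReal := ENNReal.rpow_le_rpow_of_exponent_le (by norm_num) hq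
    have h5 := (ENNReal.rpow_le_rpow_iff hpos).1 h4
    have h6 : (2 : ℝ≥0∞) * ‖S‖ₑ = ENNReal.ofReal (2 * ‖S‖) := by
      rw [ENNReal.ofReal_mul (by norm_num), ofReal_norm]; simp
    rw [h6, ENNReal.ofReal_le_ofReal_iff (by positivity)] at h5
    exact h5
  obtain ⟨k, hk⟩ := pow_unbounded_of_one_lt (2 * ‖S‖) (by linarith : 1 < 2 * r)
  exact absurd (key k) (not_le.2 hk)

/-- Every discrete group with an element of infinite order, every `1 < p < ∞`. -/
theorem exists_nonregular (hp1 : 1 < p) (hp : p ≠ ∞) (a : G)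
    (ha : Function.Injective (fun n : ℕ => a ^ n)) :
    ∃ T : Lp ℂ p (Measure.count : Measure G) →L[ℂ] Lp ℂ p (Measure.count : Measure G),
      CommutesRight₀ T ∧ ¬ IsRegular₀ T := by
  obtain ⟨r, hr1, hr2⟩ := exists_ratio hp1 hp
  exact ⟨Top a r, Top_commutes hp a r (by linarith) hr2, Top_not_regular hp1 hp a ha r hr1 hr2⟩

end Discrete

section FreeGroup

/-- The words starting with the letter `x`. -/
def W (x : Fin 2 × Bool) : Set (FreeGroup (Fin 2)) := {w | w.toWord.head? = some x}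

lemma W_cover (i : Fin 2) (b : Bool) (w : FreeGroup (Fin 2)) (hw : w ∉ W (i, b)) :
    (FreeGroup.mk [(i, !b)]) * w ∈ W (i, !b) := by
  have h1 : (FreeGroup.mk [(i, !b)] * w).toWord = FreeGroup.reduce ((i, !b) :: w.toWord) := by
    conv_lhs => rw [← FreeGroup.mk_toWord (x := w), FreeGroup.mul_mk, FreeGroup.toWord_mk]
    rfl
  unfold W at hw ⊢
  simp only [Set.mem_ofPred_eq] at hw ⊢
  rw [h1, FreeGroup.reduce.cons, FreeGroup.reduce_toWord]
  cases hL : w.toWord with
  | nil => simp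
  | cons hd tl =>
    rw [hL] at hw
    simp only [List.head?_cons, Option.some.injEq] at hw
    have : ¬ ((i, !b).1 = hd.1 ∧ (i, !b).2 = !hd.2) := by
      rintro ⟨h, h'⟩
      apply hw
      simp only at h h'
      have h'' : b = hd.2 := by
        revert h'
        cases b <;> cases hd.2 <;> simp
      rw [h, h'']
    simp only [this, if_false, List.head?_cons]

lemma commutes_conv {G : Type} [Group G] [MeasurableSpace G] [DiscreteMeasurableSpace G]
    {p : ℝ≥0∞} [Fact (1 ≤ p)]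
    (T : Lp ℂ p (Measure.count : Measure G) →L[ℂ] Lp ℂ p (Measure.count : Measure G))
    (h : CommutesRight₀ T) : CommutesRight Measure.count p (ofCLM T) := by
  intro t f hf
  have hmp : MeasurePreserving (fun x => x * t) (Measure.count : Measure G) Measure.count :=
    mp_bij _ (Group.mulRight_bijective t)
  have hft : MemLp (fun x => f (x * t)) p (Measure.count : Measure G) :=
    hf.comp_measurePreserving hmp
  rw [ofCLM_eq T f hf, ofCLM_eq T _ hft]
  apply h
  rw [Measure.ae_count_iff]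
  intro s
  have h1 := Measure.ae_count_iff.1 hf.coeFn_toLp (s * t)
  have h2 := Measure.ae_count_iff.1 hft.coeFn_toLp s
  rw [h1, h2]

lemma not_amenable [MeasurableSpace (FreeGroup (Fin 2))]
    [DiscreteMeasurableSpace (FreeGroup (Fin 2))] :
    ¬ IsAmenable (Measure.count : Measure (FreeGroup (Fin 2))) := by
  classical
  rintro ⟨m, -, hmadd, hmsmul, hpos, hone, hinv⟩
  have hmem : ∀ (f : FreeGroup (Fin 2) → ℝ), (∀ s, ‖f s‖ ≤ 4) →
      MemLp f ∞ (Measure.count : Measure (FreeGroup (Fin 2))) := by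
    intro f hf
    exact memLp_top_of_bound (Measurable.of_discrete.aestronglyMeasurable) 4
      (Filter.Eventually.of_forall hf)
  let χ : Set (FreeGroup (Fin 2)) → FreeGroup (Fin 2) → ℝ :=
    fun A s => if s ∈ A then 1 else 0
  have hχ0 : ∀ A s, 0 ≤ χ A s := by
    intro A s
    simp only [χ]
    split_ifs <;> norm_num
  have hχm : ∀ A, MemLp (χ A) ∞ (Measure.count : Measure (FreeGroup (Fin 2))) := by
    intro A
    apply hmem
    intro s
    simp only [χ]
    split_ifs <;> norm_num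
  have hmono : ∀ f g : FreeGroup (Fin 2) → ℝ,
      MemLp f ∞ (Measure.count : Measure (FreeGroup (Fin 2))) →
      MemLp g ∞ (Measure.count : Measure (FreeGroup (Fin 2))) →
      (∀ s, f s ≤ g s) → m f ≤ m g := by
    intro f g hf hg h
    have h1 := hpos (g + (-1 : ℝ) • f) (hg.add (hf.const_smul _))
      (Filter.Eventually.of_forall fun s => by
        simp only [Pi.add_apply, Pi.smul_apply, smul_eq_mul]
        linarith [h s])
    rw [hmadd _ _ hg (hf.const_smul _), hmsmul _ _ hf] at h1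
    linarith
  have huniv : m (χ Set.univ) = 1 := by
    have : χ Set.univ = fun _ => 1 := by
      funext s
      simp [χ]
    rw [this, hone]
  have htrans : ∀ (A : Set (FreeGroup (Fin 2))) (t : FreeGroup (Fin 2)),
      m (χ {w | t * w ∈ A}) = m (χ A) := by
    intro A t
    exact hinv t (χ A) (hχm A)
  have hpair : ∀ i : Fin 2, 1 ≤ m (χ (W (i, true))) + m (χ (W (i, false))) := by
    intro i
    rw [← huniv, ← htrans (W (i, false)) (FreeGroup.mk [(i, false)]), ← hmadd _ _ (hχm _) (hχm _)]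
    apply hmono _ _ (hχm _) ((hχm _).add (hχm _))
    intro s
    rw [Pi.add_apply]
    by_cases h : s ∈ W (i, true)
    · have h1 := hχ0 {w | FreeGroup.mk [(i, false)] * w ∈ W (i, false)} s
      have h2 : χ (W (i, true)) s = 1 := by simp [χ, h]
      have h3 : χ Set.univ s = 1 := by simp [χ]
      linarith
    · have h2 : s ∈ {w | FreeGroup.mk [(i, false)] * w ∈ W (i, false)} := W_cover i true s h
      have h1 := hχ0 (W (i, true)) s
      have h4 : χ {w | FreeGroup.mk [(i, false)] * w ∈ W (i, false)} s = 1 := by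
        simp only [χ]
        rw [if_pos h2]
      have h3 : χ Set.univ s = 1 := by simp [χ]
      linarith
  have htotal : m (χ (W (0, true))) + m (χ (W (0, false))) + (m (χ (W (1, true))) +
      m (χ (W (1, false)))) ≤ 1 := by
    rw [← huniv, ← hmadd _ _ (hχm _) (hχm _), ← hmadd _ _ (hχm _) (hχm _),
      ← hmadd _ _ ((hχm _).add (hχm _)) ((hχm _).add (hχm _))]
    apply hmono _ _ (((hχm _).add (hχm _)).add ((hχm _).add (hχm _))) (hχm _)
    intro s
    simp only [Pi.add_apply, χ, W, Set.mem_ofPred_eq, Set.mem_univ, if_true]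
    obtain ⟨o, ho⟩ : ∃ o, s.toWord.head? = o := ⟨_, rfl⟩
    simp only [ho]
    rcases o with _ | ⟨i, b⟩
    · simp
    · fin_cases i <;> cases b <;> simp
  have h0 := hpair 0
  have h1 := hpair 1
  linarith

end FreeGroup

end Pool.Agent.MP_b39683_an
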